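import Pool.Agent.Lib.MP_a51fee_ag.SG.Final

/-!
# Supersingular curves of almost every genus in odd characteristic

Let `p` be an odd prime and let `𝒢` be the following set of positive integers: all of them if `p ≡ 3 mod 4`
and `p ≥ 7`; the multiples of `3` if `p = 3`; those `g` which are even or not divisible by `p` if
`p ≡ 1 mod 4`.  Almost every `g ∈ 𝒢` is the genus of a supersingular smooth projective curve in
characteristic `p`: the number of exceptions up to `x` is `o(x)`.

The curves are `Z ^ e = X ^ i (X ^ w - 1)` with `e` squarefree, all primes `l ∣ e` being such that the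
order of `p` mod `l` is twice an odd number and does not divide the order of `p` mod `w`, and `i` suitable;
such a curve has genus `w (e - 1) / 2` and is supersingular.  That almost every `g ∈ 𝒢` has the form
`w (e - 1) / 2` is proved by sieve methods, the Bombieri-Vinogradov theorem and a second moment argument.
-/

set_option autoImplicit false

open Finset Filter Topology

namespace Pool.Agent.Results.MP_a51fee_ag.SupersingularDensity

open scoped Classical in
theorem result (p : ℕ) (hp : p.Prime) (hp2 : p ≠ 2) :
    Tendsto (fun x : ℕ => (((Icc 1 x).filter (fun g =>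
      ((p % 4 = 3 ∧ 7 ≤ p) ∨ (p = 3 ∧ 3 ∣ g) ∨ (p % 4 = 1 ∧ (¬ p ∣ g ∨ 2 ∣ g))) ∧
        ¬ Pool.SG.SupersingularGenus p g)).card : ℝ) / x) atTop (𝓝 0) := by
  refine (Pool.SG.main_density p hp hp2).congr fun x => ?_
  have h : (Icc 1 x).filter (fun g => Pool.SG.GG p g ∧ ¬ Pool.SG.SupersingularGenus p g) =
      (Icc 1 x).filter (fun g =>
        ((p % 4 = 3 ∧ 7 ≤ p) ∨ (p = 3 ∧ 3 ∣ g) ∨ (p % 4 = 1 ∧ (¬ p ∣ g ∨ 2 ∣ g))) ∧
          ¬ Pool.SG.SupersingularGenus p g) := by
    ext g
    rw [mem_filter, mem_filter]
    exact Iff.rfl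
  rw [h]

end Pool.Agent.Results.MP_a51fee_ag.SupersingularDensity
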